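import Pool.Agent.helper95.PY2.Spec

/-!
# Row py2:HOL (MP_f6e9a2_nt): Hoelder inequality
-/

set_option autoImplicit false

open Finset

namespace Pool.Agent.PY2

theorem HOL : HOL_stmt := by
  intro p _ f g k hk hf hg
  set S : ℝ := ∑ x, f x with hS
  have hS0 : 0 ≤ S := sum_nonneg fun x _ => hf x
  have h1 : (∑ x, f x * g x) ^ k ≤ S ^ (k - 1) * ∑ x, f x * g x ^ k := by
    rcases hS0.eq_or_lt with h0 | h0
    · have hz : ∀ x, f x = 0 := by
        intro x
        have h2 := (sum_eq_zero_iff_of_nonneg (fun x (_ : x ∈ univ) => hf x)).mp h0.symm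
        exact h2 x (mem_univ x)
      simp only [hz, zero_mul, sum_const_zero, mul_zero]
      rw [zero_pow hk.ne']
    · have h2 := Real.pow_arith_mean_le_arith_mean_pow univ (fun x => f x / S) g
        (fun x _ => div_nonneg (hf x) hS0)
        (by rw [← sum_div, ← hS, div_self h0.ne']) (fun x _ => hg x) k
      have h3 : ∑ x, f x / S * g x = (∑ x, f x * g x) / S := by
        rw [sum_div]
        exact sum_congr rfl fun x _ => by ring
      have h4 : ∑ x, f x / S * g x ^ k = (∑ x, f x * g x ^ k) / S := by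
        rw [sum_div]
        exact sum_congr rfl fun x _ => by ring
      rw [h3, h4, div_pow, div_le_div_iff₀ (pow_pos h0 k) h0] at h2
      have h5 : S ^ k = S ^ (k - 1) * S := by
        rw [← pow_succ, Nat.sub_add_cancel hk]
      rw [h5] at h2
      have h6 : (∑ x, f x * g x) ^ k * S ≤ (S ^ (k - 1) * ∑ x, f x * g x ^ k) * S := by
        linarith [h2]
      exact le_of_mul_le_mul_right h6 h0
  have h2 : (∑ x, f x * g x ^ k) ^ 2 ≤ (∑ x, f x ^ 2) * ∑ x, g x ^ (2 * k) := by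
    have h3 := sum_mul_sq_le_sq_mul_sq univ f (fun x => g x ^ k)
    have h4 : ∑ x, (g x ^ k) ^ 2 = ∑ x, g x ^ (2 * k) :=
      sum_congr rfl fun x _ => by rw [← pow_mul, mul_comm]
    rwa [h4] at h3
  have h0 : 0 ≤ ∑ x, f x * g x := sum_nonneg fun x _ => mul_nonneg (hf x) (hg x)
  calc (∑ x, f x * g x) ^ (2 * k) = ((∑ x, f x * g x) ^ k) ^ 2 := by rw [← pow_mul, mul_comm]
    _ ≤ (S ^ (k - 1) * ∑ x, f x * g x ^ k) ^ 2 := pow_le_pow_left₀ (pow_nonneg h0 k) h1 2
    _ = S ^ (2 * k - 2) * (∑ x, f x * g x ^ k) ^ 2 := by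
        rw [mul_pow, ← pow_mul]
        congr 2
        omega
    _ ≤ S ^ (2 * k - 2) * ((∑ x, f x ^ 2) * ∑ x, g x ^ (2 * k)) :=
        mul_le_mul_of_nonneg_left h2 (pow_nonneg hS0 _)
    _ = S ^ (2 * k - 2) * (∑ x, f x ^ 2) * ∑ x, g x ^ (2 * k) := by ring

end Pool.Agent.PY2
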